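import Pool.Agent.H370R2.MV

set_option autoImplicit false

/-!
# High moments of short prime polynomials

For `a : ℕ → ℂ` and the polynomial `P(t) = ∑_{p ≤ X} a_p p^(-it)` over primes:
`∫_{T1}^{T2} |P(t)|^(2k) dt ≤ (T2 - T1 + 8 X^k (1 + log X^k)) k! (∑_{p ≤ X} |a_p|²)^k`.
-/

open Complex MeasureTheory

namespace Pool.Agent.Zk3.Mom

/-- the arithmetic function equal to `a p` at primes `p ≤ X` and zero elsewhere -/
noncomputable def fa (a : ℕ → ℂ) (X : ℕ) : ArithmeticFunction ℂ :=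
  ⟨fun n => if n.Prime ∧ n ≤ X then a n else 0, by simp [Nat.not_prime_zero]⟩

/-- the squares of the absolute values -/
noncomputable def fq (a : ℕ → ℂ) (X : ℕ) : ArithmeticFunction ℝ :=
  ⟨fun n => if n.Prime ∧ n ≤ X then ‖a n‖ ^ 2 else 0, by simp [Nat.not_prime_zero]⟩

lemma fa_apply (a : ℕ → ℂ) (X n : ℕ) : fa a X n = if n.Prime ∧ n ≤ X then a n else 0 := rfl
lemma fq_apply (a : ℕ → ℂ) (X n : ℕ) : fq a X n = if n.Prime ∧ n ≤ X then ‖a n‖ ^ 2 else 0 := rfl

lemma fq_eq (a : ℕ → ℂ) (X n : ℕ) : fq a X n = ‖fa a X n‖ ^ 2 := by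
  rw [fq_apply, fa_apply]; split_ifs <;> simp

lemma fq_nonneg (a : ℕ → ℂ) (X n : ℕ) : 0 ≤ fq a X n := by rw [fq_eq]; positivity

lemma fqpow_nonneg (a : ℕ → ℂ) (X k n : ℕ) : 0 ≤ (fq a X ^ k) n := by
  induction k generalizing n with
  | zero =>
    rw [pow_zero, ArithmeticFunction.one_apply]; split_ifs <;> norm_num
  | succ k ih =>
    rw [pow_succ', ArithmeticFunction.mul_apply]
    exact Finset.sum_nonneg fun x _ => mul_nonneg (fq_nonneg _ _ _) (ih _)

/-- support: `(fa^k) n ≠ 0` implies `Ω(n) = k` and `n ≤ X^k` -/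
lemma supp (a : ℕ → ℂ) (X k n : ℕ) (h : (fa a X ^ k) n ≠ 0) :
    ArithmeticFunction.cardFactors n = k ∧ n ≤ X ^ k := by
  induction k generalizing n with
  | zero =>
    rw [pow_zero, ArithmeticFunction.one_apply] at h
    have : n = 1 := by
      by_contra h1; rw [if_neg h1] at h; exact h rfl
    rw [this]; simp
  | succ j ih =>
    rw [pow_succ', ArithmeticFunction.mul_apply] at h
    obtain ⟨x, hx, hx0⟩ := Finset.exists_ne_zero_of_sum_ne_zero h
    have h1 : fa a X x.1 ≠ 0 := left_ne_zero_of_mul hx0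
    have h2 : (fa a X ^ j) x.2 ≠ 0 := right_ne_zero_of_mul hx0
    have hp : x.1.Prime ∧ x.1 ≤ X := by
      by_contra hp; rw [fa_apply, if_neg hp] at h1; exact h1 rfl
    have hm := Nat.mem_divisorsAntidiagonal.1 hx
    have hx1 : x.1 ≠ 0 := hp.1.ne_zero
    have hx2 : x.2 ≠ 0 := by
      intro h0; rw [h0, mul_zero] at hm; exact hm.2 hm.1.symm
    obtain ⟨h3, h4⟩ := ih _ h2
    rw [← hm.1]
    constructor
    · rw [ArithmeticFunction.cardFactors_mul hx1 hx2, h3,
        ArithmeticFunction.cardFactors_eq_one_iff_prime.2 hp.1]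
      ring
    · rw [pow_succ']
      exact Nat.mul_le_mul hp.2 h4

lemma card_primeFactors_le (n : ℕ) : n.primeFactors.card ≤ ArithmeticFunction.cardFactors n := by
  rw [ArithmeticFunction.cardFactors_apply]
  exact List.toFinset_card_le _

lemma pow_sq (a : ℕ → ℂ) (X k n : ℕ) :
    ‖(fa a X ^ k) n‖ ^ 2 ≤ (k.factorial : ℝ) * (fq a X ^ k) n := by
  induction k generalizing n with
  | zero =>
    rw [pow_zero, pow_zero, ArithmeticFunction.one_apply, ArithmeticFunction.one_apply]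
    split_ifs <;> simp
  | succ j ih =>
    have hrhs : 0 ≤ ((j + 1).factorial : ℝ) * (fq a X ^ (j + 1)) n :=
      mul_nonneg (Nat.cast_nonneg _) (fqpow_nonneg _ _ _ _)
    by_cases h0 : (fa a X ^ (j + 1)) n = 0
    · rw [h0]; simpa using hrhs
    have hcard := (supp a X (j + 1) n h0).1
    have hS : (fa a X ^ (j + 1)) n = ∑ x ∈ n.divisorsAntidiagonal.filter (fun x => x.1.Prime),
        fa a X x.1 * (fa a X ^ j) x.2 := by
      rw [pow_succ', ArithmeticFunction.mul_apply, Finset.sum_filter]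
      refine Finset.sum_congr rfl fun x _ => ?_
      split_ifs with hp
      · rfl
      · rw [fa_apply, if_neg (fun h => hp h.1), zero_mul]
    have hc : (n.divisorsAntidiagonal.filter (fun x => x.1.Prime)).card ≤ j + 1 := by
      rw [← hcard]
      refine le_trans ?_ (card_primeFactors_le n)
      apply Finset.card_le_card_of_injOn Prod.fst
      · intro x hx
        have hx' := Finset.mem_filter.1 (Finset.mem_coe.1 hx)
        have hm := Nat.mem_divisorsAntidiagonal.1 hx'.1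
        exact Finset.mem_coe.2 (Nat.mem_primeFactors.2 ⟨hx'.2, ⟨x.2, hm.1.symm⟩, hm.2⟩)
      · intro x hx y hy hxy
        have hx' := Finset.mem_filter.1 (Finset.mem_coe.1 hx)
        have hy' := Finset.mem_filter.1 (Finset.mem_coe.1 hy)
        have hmx := Nat.mem_divisorsAntidiagonal.1 hx'.1
        have hmy := Nat.mem_divisorsAntidiagonal.1 hy'.1
        have hxy' : x.1 = y.1 := hxy
        have h2 : x.2 = y.2 := by
          have h3 : x.1 * x.2 = x.1 * y.2 := by rw [hmx.1, hxy', hmy.1]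
          exact Nat.eq_of_mul_eq_mul_left hx'.2.pos h3
        exact Prod.ext hxy' h2
    set S := n.divisorsAntidiagonal.filter (fun x => x.1.Prime) with hSdef
    have hcs := sq_sum_le_card_mul_sum_sq (s := S) (f := fun x => ‖fa a X x.1 * (fa a X ^ j) x.2‖)
    have hn1 : ‖(fa a X ^ (j + 1)) n‖ ≤ ∑ x ∈ S, ‖fa a X x.1 * (fa a X ^ j) x.2‖ := by
      rw [hS]; exact norm_sum_le _ _
    have hsum : ∑ x ∈ S, ‖fa a X x.1 * (fa a X ^ j) x.2‖ ^ 2 ≤
        (j.factorial : ℝ) * (fq a X ^ (j + 1)) n := by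
      rw [pow_succ', ArithmeticFunction.mul_apply, Finset.mul_sum]
      refine (Finset.sum_le_sum_of_subset_of_nonneg (Finset.filter_subset _ _)
        (fun x _ _ => sq_nonneg _)).trans ?_
      apply Finset.sum_le_sum
      intro x _
      rw [norm_mul, mul_pow, ← fq_eq]
      calc fq a X x.1 * ‖(fa a X ^ j) x.2‖ ^ 2 ≤ fq a X x.1 * ((j.factorial : ℝ) * (fq a X ^ j) x.2) :=
            mul_le_mul_of_nonneg_left (ih x.2) (fq_nonneg _ _ _)
        _ = _ := by ring
    have hfac : ((j + 1).factorial : ℝ) = ((j : ℝ) + 1) * (j.factorial : ℝ) := by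
      rw [Nat.factorial_succ]; push_cast; ring
    rw [hfac]
    have hsum0 : 0 ≤ ∑ x ∈ S, ‖fa a X x.1 * (fa a X ^ j) x.2‖ ^ 2 :=
      Finset.sum_nonneg fun x _ => sq_nonneg _
    have hcR : (S.card : ℝ) ≤ (j : ℝ) + 1 := by exact_mod_cast hc
    calc _ ≤ (∑ x ∈ S, ‖fa a X x.1 * (fa a X ^ j) x.2‖) ^ 2 :=
          pow_le_pow_left₀ (norm_nonneg _) hn1 2
      _ ≤ _ := hcs
      _ ≤ ((j : ℝ) + 1) * ((j.factorial : ℝ) * (fq a X ^ (j + 1)) n) :=
        mul_le_mul hcR hsum hsum0 (by positivity)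
      _ = _ := by ring

/-- sums of Dirichlet convolutions of functions with bounded support -/
lemma sum_mul {R : Type*} [CommSemiring R] (f g : ArithmeticFunction R) (A B : ℕ) (u : ℕ → R)
    (hu : ∀ m n : ℕ, m ≠ 0 → n ≠ 0 → u (m * n) = u m * u n)
    (hf : ∀ n, A < n → f n = 0) (hg : ∀ n, B < n → g n = 0) :
    ∑ n ∈ Finset.Icc 1 (A * B), (f * g) n * u n =
      (∑ n ∈ Finset.Icc 1 A, f n * u n) * ∑ n ∈ Finset.Icc 1 B, g n * u n := by
  classical
  rw [Finset.sum_mul_sum, ← Finset.sum_product']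
  have h1 : ∀ n ∈ Finset.Icc 1 (A * B), (f * g) n * u n =
      ∑ x ∈ (Finset.Icc 1 A ×ˢ Finset.Icc 1 B).filter (fun x => x.1 * x.2 = n),
        f x.1 * u x.1 * (g x.2 * u x.2) := by
    intro n hn
    have hn1 := (Finset.mem_Icc.1 hn).1
    rw [ArithmeticFunction.mul_apply, Finset.sum_mul]
    symm
    apply Finset.sum_subset_zero_on_sdiff
    · intro x hx
      have hx' := Finset.mem_filter.1 hx
      exact Nat.mem_divisorsAntidiagonal.2 ⟨hx'.2, by omega⟩
    · intro x hx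
      have hx' := Finset.mem_sdiff.1 hx
      have hm := Nat.mem_divisorsAntidiagonal.1 hx'.1
      have hx1 : x.1 ≠ 0 := by intro h0; rw [h0, zero_mul] at hm; exact hm.2 hm.1.symm
      have hx2 : x.2 ≠ 0 := by intro h0; rw [h0, mul_zero] at hm; exact hm.2 hm.1.symm
      by_cases hA : x.1 ≤ A
      · have hB : B < x.2 := by
          by_contra hB
          exact hx'.2 (Finset.mem_filter.2 ⟨Finset.mem_product.2 ⟨Finset.mem_Icc.2 ⟨by omega, hA⟩,
            Finset.mem_Icc.2 ⟨by omega, by omega⟩⟩, hm.1⟩)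
        rw [hg _ hB]; simp
      · rw [hf _ (by omega)]; simp
    · intro x hx
      have hx' := Finset.mem_filter.1 hx
      have hp := Finset.mem_product.1 hx'.1
      have h1 := (Finset.mem_Icc.1 hp.1).1
      have h2 := (Finset.mem_Icc.1 hp.2).1
      rw [← hx'.2, hu _ _ (by omega) (by omega)]
      ring
  rw [Finset.sum_congr rfl h1]
  apply Finset.sum_fiberwise_of_maps_to
  intro x hx
  have hp := Finset.mem_product.1 hx
  have h1 := Finset.mem_Icc.1 hp.1
  have h2 := Finset.mem_Icc.1 hp.2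
  exact Finset.mem_Icc.2 ⟨Nat.mul_pos h1.1 h2.1, Nat.mul_le_mul h1.2 h2.2⟩

lemma sum_pow {R : Type*} [CommSemiring R] (f : ArithmeticFunction R) (A k : ℕ) (_hA : 1 ≤ A)
    (u : ℕ → R) (hu : ∀ m n : ℕ, m ≠ 0 → n ≠ 0 → u (m * n) = u m * u n) (hu1 : u 1 = 1)
    (hf : ∀ n, A < n → f n = 0) :
    (∀ n, A ^ k < n → (f ^ k) n = 0) ∧
    ∑ n ∈ Finset.Icc 1 (A ^ k), (f ^ k) n * u n = (∑ n ∈ Finset.Icc 1 A, f n * u n) ^ k := by
  induction k with
  | zero =>
    refine ⟨fun n hn => ?_, ?_⟩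
    · rw [pow_zero] at hn
      rw [pow_zero, ArithmeticFunction.one_apply, if_neg (by omega)]
    · simp [hu1]
  | succ k ih =>
    refine ⟨fun n hn => ?_, ?_⟩
    · rw [pow_succ', ArithmeticFunction.mul_apply]
      apply Finset.sum_eq_zero
      intro x hx
      have hm := Nat.mem_divisorsAntidiagonal.1 hx
      by_cases h1 : A < x.1
      · rw [hf _ h1, zero_mul]
      · rw [ih.1 x.2, mul_zero]
        by_contra h2
        have h3 : x.1 * x.2 ≤ A * A ^ k := Nat.mul_le_mul (by omega) (by omega)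
        rw [hm.1, ← pow_succ'] at h3
        omega
    · rw [pow_succ' f, pow_succ' A, sum_mul f (f ^ k) A (A ^ k) u hu hf ih.1, ih.2, pow_succ' (∑ n ∈ _, _)]

lemma sum_prime {M : Type*} [AddCommMonoid M] (X : ℕ) (g : ℕ → M) :
    ∑ n ∈ Finset.Icc 1 X, (if n.Prime ∧ n ≤ X then g n else 0) =
      ∑ p ∈ (Finset.Icc 1 X).filter Nat.Prime, g p := by
  rw [Finset.sum_filter]
  refine Finset.sum_congr rfl fun n hn => ?_
  have := (Finset.mem_Icc.1 hn).2
  by_cases h : n.Prime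
  · rw [if_pos ⟨h, this⟩, if_pos h]
  · rw [if_neg (fun h' => h h'.1), if_neg h]

/-- **High moments of prime polynomials.** -/
theorem moment (a : ℕ → ℂ) (X k : ℕ) (hX : 1 ≤ X) (T1 T2 : ℝ) (hT : T1 ≤ T2) :
    ∫ t in T1..T2, ‖∑ p ∈ (Finset.Icc 1 X).filter Nat.Prime, a p * (p : ℂ) ^ (-(t : ℂ) * I)‖ ^ (2 * k) ≤
      (T2 - T1 + 8 * (X : ℝ) ^ k * (1 + Real.log ((X : ℝ) ^ k))) *
        ((k.factorial : ℝ) * (∑ p ∈ (Finset.Icc 1 X).filter Nat.Prime, ‖a p‖ ^ 2) ^ k) := by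
  have hfz : ∀ n, X < n → fa a X n = 0 := fun n hn => by
    rw [fa_apply, if_neg (by rintro ⟨_, h⟩; omega)]
  have hqz : ∀ n, X < n → fq a X n = 0 := fun n hn => by
    rw [fq_apply, if_neg (by rintro ⟨_, h⟩; omega)]
  have hmv := H370.mean_value (fun n => (fa a X ^ k) n) (X ^ k) T1 T2 hT
  have hint : ∀ t : ℝ, ‖∑ n ∈ Finset.Icc 1 (X ^ k), (fa a X ^ k) n * (n : ℂ) ^ (-(t : ℂ) * I)‖ ^ 2 =
      ‖∑ p ∈ (Finset.Icc 1 X).filter Nat.Prime, a p * (p : ℂ) ^ (-(t : ℂ) * I)‖ ^ (2 * k) := by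
    intro t
    have h1 := (sum_pow (fa a X) X k hX (fun n : ℕ => (n : ℂ) ^ (-(t : ℂ) * I))
      (fun m n hm hn => by
        push_cast
        rw [Complex.natCast_mul_natCast_cpow])
      (by simp) hfz).2
    rw [h1, norm_pow, ← pow_mul, mul_comm k 2]
    congr 2
    rw [← sum_prime X (fun p => a p * (p : ℂ) ^ (-(t : ℂ) * I))]
    refine Finset.sum_congr rfl fun n _ => ?_
    rw [fa_apply]; split_ifs <;> simp
  simp_rw [hint] at hmv
  have hsum : ∑ n ∈ Finset.Icc 1 (X ^ k), ‖(fa a X ^ k) n‖ ^ 2 ≤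
      (k.factorial : ℝ) * (∑ p ∈ (Finset.Icc 1 X).filter Nat.Prime, ‖a p‖ ^ 2) ^ k := by
    have h2 := (sum_pow (fq a X) X k hX (fun _ => (1 : ℝ)) (fun _ _ _ _ => by norm_num) rfl hqz).2
    simp only [mul_one] at h2
    have h3 : ∑ n ∈ Finset.Icc 1 X, fq a X n =
        ∑ p ∈ (Finset.Icc 1 X).filter Nat.Prime, ‖a p‖ ^ 2 := by
      rw [← sum_prime X (fun p => ‖a p‖ ^ 2)]
      exact Finset.sum_congr rfl fun n _ => rfl
    rw [← h3, ← h2, Finset.mul_sum]
    exact Finset.sum_le_sum fun n _ => pow_sq a X k n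
  refine hmv.trans ?_
  push_cast
  refine mul_le_mul_of_nonneg_left hsum ?_
  have h5 : (1 : ℝ) ≤ (X : ℝ) ^ k := one_le_pow₀ (by exact_mod_cast hX)
  have h6 := Real.log_nonneg h5
  have : 0 ≤ T2 - T1 := by linarith
  positivity

end Pool.Agent.Zk3.Mom
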